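import Mathlib
import Pool.Agent.Lib.MP_26251e_nt.Defs
import Pool.Agent.Lib.MP_26251e_nt.A9

/-!
# MP_26251e_nt, question Q1: complete answer (the statement is false, because of Wolstenholme primes,
and true for every other prime).
-/

namespace Pool.Agent.Results.MP_26251e_nt.Q1

open Pool.Agent.Lib.MP_26251e_nt

/-- The `p`-adic valuation on the integers, with value `⊤` at `0`. -/
noncomputable def nu (p : ℕ) (x : ℤ) : ℕ∞ := emultiplicity (p : ℤ) x

/-- The formula of Q1 for the triple `(p, m, n)`, with the correction `[p = 3]` moved to the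
left-hand side: `ν_p(d_m(p²n) - d_m(n)) + [p = 3] = ν_p(n) + 2 ν_p(m) + 3`. -/
def Formula (p m n : ℕ) : Prop :=
  nu p (d p m (p ^ 2 * n) - d p m n) + (if p = 3 then 1 else 0) =
    nu p (n : ℤ) + 2 * nu p (m : ℤ) + 3

/-- Wolstenholme primes: primes `p ≥ 5` with `C(2p-1, p-1) ≡ 1 (mod p^4)`. -/
def IsWolstenholmePrime (p : ℕ) : Prop :=
  p.Prime ∧ 5 ≤ p ∧ (p : ℤ) ^ 4 ∣ ((2 * p - 1).choose (p - 1) : ℤ) - 1

theorem nu_nat {p : ℕ} (hp : p.Prime) (r u : ℕ) (hu : ¬ p ∣ u) :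
    nu p ((p ^ r * u : ℕ) : ℤ) = r := by
  rw [nu, emultiplicity_eq_coe]
  constructor
  · push_cast; exact dvd_mul_right _ _
  · push_cast
    rw [pow_succ]
    intro h
    have h2 := (mul_dvd_mul_iff_left (pow_ne_zero r (by exact_mod_cast hp.ne_zero : (p : ℤ) ≠ 0))).mp h
    exact hu (Int.natCast_dvd_natCast.mp h2)

theorem not_beta_of_not_W {p : ℕ} (hp : p.Prime) (hp3 : 3 ≤ p) (hW : ¬ IsWolstenholmePrime p) :
    ¬ (p : ℤ) ^ (kap p + 1) ∣ beta p := by
  by_cases h3 : p = 3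
  · subst h3; exact beta_three_not
  · have h5 : 5 ≤ p := by
      rcases Nat.lt_or_ge p 5 with h | h
      · interval_cases p
        · exact absurd rfl h3
        · exact absurd hp (by decide)
      · exact h
    rw [kap, if_neg h3]
    intro h
    exact hW ⟨hp, h5, h⟩

theorem beta_of_W {p : ℕ} (hW : IsWolstenholmePrime p) :
    (p : ℤ) ^ (kap p + 1) ∣ beta p := by
  obtain ⟨_, h5, h⟩ := hW
  rw [kap, if_neg (by omega)]
  exact h

theorem kap_add (p : ℕ) : ((kap p : ℕ) : ℕ∞) + (if p = 3 then 1 else 0) = 3 := by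
  by_cases h3 : p = 3
  · rw [kap, if_pos h3, if_pos h3]; norm_num
  · rw [kap, if_neg h3, if_neg h3]; norm_num

/-- the formula is equivalent to an exact power of `p`. -/
theorem formula_iff {p : ℕ} (hp : p.Prime) (hp3 : 3 ≤ p) (m n : ℕ) (hm : 1 ≤ m)
    (hmp : m % p ≠ p - 1) (hn : 1 ≤ n) : Formula p m n ↔ ¬ IsWolstenholmePrime p := by
  obtain ⟨r, u, hu, rfl⟩ := Nat.exists_eq_pow_mul_and_not_dvd (n := n) (by omega) p hp.ne_one
  obtain ⟨s, v, hv, hsv⟩ := Nat.exists_eq_pow_mul_and_not_dvd (n := m) (by omega) p hp.ne_one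
  have hm1 : ¬ p ∣ m + 1 := by
    intro h
    apply hmp
    have h1 : (m + 1) % p = 0 := Nat.mod_eq_zero_of_dvd h
    have h2 : m % p < p := Nat.mod_lt _ hp.pos
    rw [Nat.add_mod] at h1
    rw [Nat.mod_eq_of_lt (by omega : 1 < p)] at h1
    by_contra h3
    rw [Nat.mod_eq_of_lt (by omega)] at h1
    omega
  have hw : m ^ 2 * (m + 1) = p ^ (2 * s) * (v ^ 2 * (m + 1)) := by
    conv_lhs => rw [show m ^ 2 = (p ^ s * v) ^ 2 by rw [← hsv]]
    ring
  have hc1 : ¬ p ∣ v ^ 2 * (m + 1) := by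
    intro h
    rcases (Nat.Prime.dvd_mul hp).mp h with h | h
    · exact hv (hp.dvd_of_dvd_pow h)
    · exact hm1 h
  have hnu_n := nu_nat hp r u hu
  have hnu_m := nu_nat hp s v hv
  rw [← hsv] at hnu_m
  have hlow := lower hp hp3 m (2 * s) r u hm ⟨_, hw⟩
  rw [Formula, hnu_n, hnu_m]
  have hrhs : (r : ℕ∞) + 2 * (s : ℕ∞) + 3 = ((kap p + 2 * s + r : ℕ) : ℕ∞) + (if p = 3 then 1 else 0) := by
    push_cast
    rw [← kap_add p]; ring
  rw [hrhs]
  have hfin : (if p = 3 then (1 : ℕ∞) else 0) ≠ ⊤ := by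
    split_ifs <;> simp
  have hinj : ∀ a b : ℕ∞, a + (if p = 3 then 1 else 0) = b + (if p = 3 then 1 else 0) ↔ a = b :=
    fun a b => (ENat.add_left_injective_of_ne_top hfin).eq_iff
  rw [hinj, nu, emultiplicity_eq_coe]
  constructor
  · rintro ⟨-, h2⟩ hW
    exact h2 (upperW hp hp3 m (2 * s) r u hm ⟨_, hw⟩ (beta_of_W hW))
  · intro hW
    exact ⟨hlow, not_dvd hp hp3 m (2 * s) r u _ hm hw hc1 hu (Or.inl hm1) (not_beta_of_not_W hp hp3 hW)⟩

/-- **Complete answer to Q1.** For every prime `p ≥ 3`, every `m ≥ 1` with `m ≢ -1 (mod p)` and every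
`n ≥ 1` the formula holds if and only if `p` is not a Wolstenholme prime; `16843` is a Wolstenholme
prime, so the assertion of Q1 is false. -/
theorem result :
    (∀ p m n : ℕ, p.Prime → 3 ≤ p → 1 ≤ m → m % p ≠ p - 1 → 1 ≤ n →
      (Formula p m n ↔ ¬ IsWolstenholmePrime p)) ∧
    IsWolstenholmePrime 16843 ∧
    ¬ (∀ p m n : ℕ, p.Prime → 3 ≤ p → 1 ≤ m → m % p ≠ p - 1 → 1 ≤ n → Formula p m n) := by
  have hW : IsWolstenholmePrime 16843 := ⟨prime_16843, by norm_num, wolstenholme_16843⟩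
  refine ⟨fun p m n hp hp3 hm hmp hn => formula_iff hp hp3 m n hm hmp hn, hW, ?_⟩
  intro h
  exact (formula_iff prime_16843 (by norm_num) 1 1 le_rfl (by norm_num) le_rfl).mp
    (h 16843 1 1 prime_16843 (by norm_num) le_rfl (by norm_num) le_rfl) hW

end Pool.Agent.Results.MP_26251e_nt.Q1
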