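import Mathlib
import Pool.Agent.Lib.MP_26251e_nt.Defs
import Pool.Agent.Lib.MP_26251e_nt.A9

/-!
# MP_26251e_nt, question Q2: complete answer. The inequality always holds, but the assertion that it is
an equality for infinitely many `n` fails when `p² ∣ m + 1` (and for Wolstenholme primes).
-/

namespace Pool.Agent.Results.MP_26251e_nt.Q2

open Pool.Agent.Lib.MP_26251e_nt

/-- The `p`-adic valuation on the integers, with value `⊤` at `0`. -/
noncomputable def nu (p : ℕ) (x : ℤ) : ℕ∞ := emultiplicity (p : ℤ) x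

/-- The lower bound of Q2, with the correction `[p = 3]` moved to the other side:
`ν_p(n) + 4 ≤ ν_p(d_m(p²n) - d_m(n)) + [p = 3]` for all `n ≥ 1`. -/
def LowerBound (p m : ℕ) : Prop :=
  ∀ n : ℕ, 1 ≤ n →
    nu p (n : ℤ) + 4 ≤ nu p (d p m (p ^ 2 * n) - d p m n) + (if p = 3 then 1 else 0)

/-- The set of `n ≥ 1` for which the lower bound of Q2 is an equality. -/
def EqualitySet (p m : ℕ) : Set ℕ :=
  {n : ℕ | 1 ≤ n ∧
    nu p (d p m (p ^ 2 * n) - d p m n) + (if p = 3 then 1 else 0) = nu p (n : ℤ) + 4}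

/-- Wolstenholme primes: primes `p ≥ 5` with `C(2p-1, p-1) ≡ 1 (mod p^4)`. -/
def IsWolstenholmePrime (p : ℕ) : Prop :=
  p.Prime ∧ 5 ≤ p ∧ (p : ℤ) ^ 4 ∣ ((2 * p - 1).choose (p - 1) : ℤ) - 1

theorem nu_nat {p : ℕ} (hp : p.Prime) (r u : ℕ) (hu : ¬ p ∣ u) :
    nu p ((p ^ r * u : ℕ) : ℤ) = r := by
  rw [nu, emultiplicity_eq_coe]
  constructor
  · push_cast; exact dvd_mul_right _ _
  · push_cast
    rw [pow_succ]
    intro h
    have h2 := (mul_dvd_mul_iff_left (pow_ne_zero r (by exact_mod_cast hp.ne_zero : (p : ℤ) ≠ 0))).mp h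
    exact hu (Int.natCast_dvd_natCast.mp h2)

theorem not_beta_of_not_W {p : ℕ} (hp : p.Prime) (hp3 : 3 ≤ p) (hW : ¬ IsWolstenholmePrime p) :
    ¬ (p : ℤ) ^ (kap p + 1) ∣ beta p := by
  by_cases h3 : p = 3
  · subst h3; exact beta_three_not
  · have h5 : 5 ≤ p := by
      rcases Nat.lt_or_ge p 5 with h | h
      · interval_cases p
        · exact absurd rfl h3
        · exact absurd hp (by decide)
      · exact h
    rw [kap, if_neg h3]
    intro h
    exact hW ⟨hp, h5, h⟩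

theorem beta_of_W {p : ℕ} (hW : IsWolstenholmePrime p) :
    (p : ℤ) ^ (kap p + 1) ∣ beta p := by
  obtain ⟨_, h5, h⟩ := hW
  rw [kap, if_neg (by omega)]
  exact h

theorem kap_add (p : ℕ) : ((kap p : ℕ) : ℕ∞) + (if p = 3 then 1 else 0) = 3 := by
  by_cases h3 : p = 3
  · rw [kap, if_pos h3, if_pos h3]; norm_num
  · rw [kap, if_neg h3, if_neg h3]; norm_num

theorem four_eq (p r : ℕ) :
    (r : ℕ∞) + 4 = ((kap p + 1 + r : ℕ) : ℕ∞) + (if p = 3 then 1 else 0) := by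
  push_cast
  calc (r : ℕ∞) + 4 = (3 : ℕ∞) + 1 + r := by rw [add_comm]; norm_num
    _ = _ := by rw [← kap_add p]; ring

theorem dvd_succ_of_mod {p m : ℕ} (hp : p.Prime) (hmp : m % p = p - 1) : p ∣ m + 1 := by
  have h2 := hp.two_le
  apply Nat.dvd_of_mod_eq_zero
  rw [Nat.add_mod, hmp, Nat.mod_eq_of_lt (by omega : 1 < p), show p - 1 + 1 = p by omega,
    Nat.mod_self]

theorem lowerBound {p : ℕ} (hp : p.Prime) (hp3 : 3 ≤ p) (m : ℕ) (hm : 1 ≤ m)
    (hmp : m % p = p - 1) : LowerBound p m := by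
  intro n hn
  obtain ⟨r, u, hu, rfl⟩ := Nat.exists_eq_pow_mul_and_not_dvd (n := n) (by omega) p hp.ne_one
  have hd := dvd_succ_of_mod hp hmp
  have hlow := lower hp hp3 m 1 r u hm (by rw [pow_one]; exact Dvd.dvd.mul_left hd _)
  rw [nu_nat hp r u hu, four_eq p r]
  gcongr
  exact pow_dvd_iff_le_emultiplicity.mp hlow

theorem strict_of {p : ℕ} (hp : p.Prime) (m r u : ℕ) (hu : ¬ p ∣ u)
    (h : (p : ℤ) ^ (kap p + 1 + r + 1) ∣ d p m (p ^ 2 * (p ^ r * u)) - d p m (p ^ r * u)) :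
    p ^ r * u ∉ EqualitySet p m := by
  rintro ⟨-, h2⟩
  rw [nu_nat hp r u hu, four_eq p r] at h2
  have hfin : (if p = 3 then (1 : ℕ∞) else 0) ≠ ⊤ := by
    split_ifs <;> simp
  have h3 := (ENat.add_left_injective_of_ne_top hfin) h2
  rw [nu, emultiplicity_eq_coe] at h3
  exact h3.2 h

theorem empty_of {p : ℕ} (hp : p.Prime) (hp3 : 3 ≤ p) (m : ℕ) (hm : 1 ≤ m)
    (hmp : m % p = p - 1) (h : p ^ 2 ∣ m + 1 ∨ IsWolstenholmePrime p) : EqualitySet p m = ∅ := by
  rw [Set.eq_empty_iff_forall_notMem]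
  intro n hn
  have hn1 := hn.1
  obtain ⟨r, u, hu, rfl⟩ := Nat.exists_eq_pow_mul_and_not_dvd (n := n) (by omega) p hp.ne_one
  apply strict_of hp m r u hu _ hn
  rcases h with h | h
  · have := lower hp hp3 m 2 r u hm (Dvd.dvd.mul_left h _)
    rwa [show kap p + 2 + r = kap p + 1 + r + 1 by ring] at this
  · exact upperW hp hp3 m 1 r u hm
      (by rw [pow_one]; exact Dvd.dvd.mul_left (dvd_succ_of_mod hp hmp) _) (beta_of_W h)

theorem infinite_of {p : ℕ} (hp : p.Prime) (hp3 : 3 ≤ p) (m : ℕ) (hm : 1 ≤ m)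
    (hmp : m % p = p - 1) (h1 : ¬ p ^ 2 ∣ m + 1) (h2 : ¬ IsWolstenholmePrime p) :
    (EqualitySet p m).Infinite := by
  obtain ⟨c, hc⟩ := dvd_succ_of_mod hp hmp
  have hcp : ¬ p ∣ c := by
    intro h
    apply h1
    rw [hc, sq]
    exact Nat.mul_dvd_mul_left p h
  have hmnp : ¬ p ∣ m := by
    intro h
    have h3 : p ∣ 1 := (Nat.dvd_add_right h).mp ⟨c, hc⟩
    exact hp.one_lt.ne' (Nat.dvd_one.mp h3)
  have hsub : ∀ k : ℕ, p * k + 1 ∈ EqualitySet p m := by
    intro k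
    refine ⟨by omega, ?_⟩
    have hu : ¬ p ∣ p * k + 1 := by
      intro h
      have h3 : p ∣ 1 := (Nat.dvd_add_right (dvd_mul_right p k)).mp h
      exact hp.one_lt.ne' (Nat.dvd_one.mp h3)
    have hw : m ^ 2 * (m + 1) = p ^ 1 * (m ^ 2 * c) := by rw [hc]; ring
    have hc1 : ¬ p ∣ m ^ 2 * c := by
      intro h
      rcases (Nat.Prime.dvd_mul hp).mp h with h | h
      · exact hmnp (hp.dvd_of_dvd_pow h)
      · exact hcp h
    have e1 : p * k + 1 = p ^ 0 * (p * k + 1) := by rw [pow_zero, one_mul]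
    have h3 := lower hp hp3 m 1 0 (p * k + 1) hm ⟨_, hw⟩
    have h4 := not_dvd hp hp3 m 1 0 (p * k + 1) _ hm hw hc1 hu (Or.inr rfl)
      (not_beta_of_not_W hp hp3 h2)
    rw [e1, nu_nat hp 0 _ hu, four_eq p 0]
    congr 1
    rw [nu, emultiplicity_eq_coe]
    exact ⟨h3, h4⟩
  apply Set.infinite_of_injective_forall_mem (f := fun k : ℕ => p * k + 1) _ hsub
  intro a b hab
  have : p * a + 1 = p * b + 1 := hab
  exact Nat.eq_of_mul_eq_mul_left hp.pos (by omega)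

/-- **Complete answer to Q2.** For every prime `p ≥ 3` and `m ≡ -1 (mod p)` the inequality of Q2 holds
for all `n ≥ 1`; it is an equality for infinitely many `n` iff `p² ∤ m + 1` and `p` is not a
Wolstenholme prime; otherwise it is an equality for no `n`. In particular (`p = 3`, `m = 8`) the
assertion of Q2 is false. -/
theorem result :
    (∀ p m : ℕ, p.Prime → 3 ≤ p → 1 ≤ m → m % p = p - 1 →
      LowerBound p m ∧
      ((EqualitySet p m).Infinite ↔ (¬ p ^ 2 ∣ m + 1 ∧ ¬ IsWolstenholmePrime p)) ∧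
      ((p ^ 2 ∣ m + 1 ∨ IsWolstenholmePrime p) → EqualitySet p m = ∅)) ∧
    ¬ (∀ p m : ℕ, p.Prime → 3 ≤ p → 1 ≤ m → m % p = p - 1 →
      LowerBound p m ∧ (EqualitySet p m).Infinite) := by
  refine ⟨fun p m hp hp3 hm hmp => ⟨lowerBound hp hp3 m hm hmp, ⟨?_, ?_⟩,
    empty_of hp hp3 m hm hmp⟩, ?_⟩
  · intro hinf
    by_contra hcon
    have h : p ^ 2 ∣ m + 1 ∨ IsWolstenholmePrime p := by tauto
    rw [empty_of hp hp3 m hm hmp h] at hinf
    exact hinf Set.finite_empty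
  · rintro ⟨h1, h2⟩
    exact infinite_of hp hp3 m hm hmp h1 h2
  · intro h
    have h1 := (h 3 8 Nat.prime_three le_rfl (by norm_num) (by norm_num)).2
    rw [empty_of Nat.prime_three le_rfl 8 (by norm_num) (by norm_num) (Or.inl (by norm_num))] at h1
    exact h1 Set.finite_empty

end Pool.Agent.Results.MP_26251e_nt.Q2
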